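import Pool.Agent.V5helper92.Tan.MainTwo

/-!
# The maximum is attained at a point of all irreducible components, for `n ≥ d - 1`

Let `k` be an algebraically closed field of any characteristic, `d ≥ 3` and `n ≥ d - 1`. The maximal
dimension of the tangent spaces of the smoothable component of the Hilbert scheme of `d` points of
the affine space of dimension `n` is attained at a point which lies on all the irreducible
components of the Hilbert scheme. In particular, if the Hilbert scheme is reducible, then the
point lies also on a component which is not the smoothable component.

The definitions are in `Pool/Agent/V5helper92/Tan/Defs.lean`.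

*Proof.* The point is the ideal generated by the products of two of the first `d - 1` variables, and
by the other variables; the dimension of the tangent space is in the file `LargeAmbientSpace`. Let
`Z` be an irreducible component. It is stable under the (partially defined) action of all polynomial
maps from the affine space to itself, since every such map is joined by a line to the identity
(`component_moves`). For a point of `Z` with quotient `A` we choose a basis `1, a_1, …, a_(d-1)` of
`A` and a polynomial map which maps the variables to `a_1, …, a_(d-1), 0, …, 0`, and then we let the
scalar multiples of the new point of `Z` converge to the origin.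
-/

set_option autoImplicit false

namespace Pool.Agent.Results.MP_9d305a_ag.EveryComponent

open Pool.Agent.V5helper92.Tan

/-- **Theorem.** For `d ≥ 3` and `n ≥ d - 1` there is a point `x` of the smoothable component at which
the dimension of the tangent space of the smoothable component is maximal and which lies on all the
irreducible components of the Hilbert scheme; if the Hilbert scheme is reducible, then it lies on
an irreducible component different from the smoothable component. -/
theorem result {k : Type} [Field k] [IsAlgClosed k] {d n : ℕ} (hd : 3 ≤ d) (hn : d ≤ n + 1) :
    ∃ x ∈ smoothable k d n,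
      (∃ r, HasTangentDim (smoothable k d n) x r ∧
        ∀ y ∈ smoothable k d n, ∀ s, HasTangentDim (smoothable k d n) y s → s ≤ r) ∧
      (∀ Z ∈ irreducibleComponents (Hilb k d n), x ∈ Z) ∧
      (¬ IrreducibleSpace (Hilb k d n) →
        ∃ Z ∈ irreducibleComponents (Hilb k d n), Z ≠ smoothable k d n ∧ x ∈ Z) := by
  have : Infinite k := IsAlgClosed.instInfinite
  obtain ⟨e, rfl⟩ : ∃ e, d = e + 1 := ⟨d - 1, by omega⟩
  have he : e ≤ n := by omega
  have hall : ∀ Z ∈ irreducibleComponents (Hilb k (e + 1) n), x₀ k he ∈ Z := fun Z hZ =>
    mem_component he hZ
  refine ⟨x₀ k he, x₀_mem he, ?_, hall, fun hirr => ?_⟩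
  · obtain ⟨h1, h2⟩ := finrank_tangentSpace (inChart₀ (k := k) he) hd (smoothable k (e + 1) n)
    refine ⟨_, ⟨B₀ he, c₀ k he, inChart₀ he, rfl⟩, ?_⟩
    rintro y - s ⟨B, c, hc, rfl⟩
    obtain ⟨h3, h4⟩ := finrank_tangentSpace hc hd (smoothable k (e + 1) n)
    rw [← Module.finrank_eq_rank, ← Module.finrank_eq_rank]
    exact_mod_cast h4.trans (le_finrank he (by omega))
  · by_contra hcon
    push Not at hcon
    have h1 : ∀ Z ∈ irreducibleComponents (Hilb k (e + 1) n), Z = smoothable k (e + 1) n :=
      fun Z hZ => by
        by_contra h2
        exact hcon Z hZ h2 (hall Z hZ)
    have h2 : smoothable k (e + 1) n = Set.univ := by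
      rw [Set.eq_univ_iff_forall]
      intro x
      have h3 := mem_irreducibleComponent (x := x)
      rwa [h1 _ (irreducibleComponent_mem_irreducibleComponents x)] at h3
    have h3 := (irreducibleComponent_mem_irreducibleComponents (x₀ k he)).prop
    rw [h1 _ (irreducibleComponent_mem_irreducibleComponents _), h2] at h3
    exact hirr (irreducibleSpace_def _ |>.2 h3)

end Pool.Agent.Results.MP_9d305a_ag.EveryComponent
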