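import Pool.Agent.V5helper92.Tan.MainOne

/-!
# The maximal dimension of the tangent spaces of the smoothable component, for `n ≥ d - 1`

Let `k` be an algebraically closed field of any characteristic, and `d ≥ 3`. The tangent spaces of
the smoothable component of the Hilbert scheme of `d` points of the affine space of dimension `n`
have at most the dimension `n d + d (d - 1) (d - 3) / 2`, and this is the maximum if `n ≥ d - 1`.

The Hilbert scheme (its closed points, with the Zariski topology), its standard charts, the
smoothable component and the tangent spaces of a closed subset with its reduced structure are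
defined in `Pool/Agent/V5helper92/Tan/Defs.lean`.

*Upper bound.* For a point `J` with quotient `A`, a tangent vector `v` of the Hilbert scheme and an
endomorphism `g` of the vector space `A` give a linear map `ψ` from the polynomial ring to `A` with
`ψ (p q) = ψ (p) q + p ψ (q) + f (p, q)`, where `f` is a symmetric cocycle on `A`. The pair
`(v, g)` is determined by the values of `ψ` at `1` and at the variables, and by the values of `f`
modulo the scalars: a normalized cocycle with values in the scalars vanishes, if `d ≥ 3`.

*Lower bound.* At the ideal generated by the products of two of the first `d - 1` variables, and by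
the other variables, the tangent vectors of families of `d` different points which converge to the
origin span the tangent space of the Hilbert scheme, of the dimension above.
-/

set_option autoImplicit false

namespace Pool.Agent.Results.MP_9d305a_ag.LargeAmbientSpace

open Pool.Agent.V5helper92.Tan

/-- **Theorem.** The tangent spaces of the smoothable component have at most the dimension
`n d + d (d - 1) (d - 3) / 2`, and this is the maximum if `n ≥ d - 1`. -/
theorem result {k : Type} [Field k] [IsAlgClosed k] {d n : ℕ} (hd : 3 ≤ d) :
    (∀ x ∈ smoothable k d n, ∀ r, HasTangentDim (smoothable k d n) x r →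
      r ≤ ((n * d + d * (d - 1) * (d - 3) / 2 : ℕ) : Cardinal)) ∧
    (d ≤ n + 1 →
      IsGreatest {r | ∃ x ∈ smoothable k d n, HasTangentDim (smoothable k d n) x r}
        ((n * d + d * (d - 1) * (d - 3) / 2 : ℕ) : Cardinal)) := by
  have : Infinite k := IsAlgClosed.instInfinite
  refine ⟨?_, fun hn => isGreatest hd hn⟩
  rintro x - r ⟨B, c, hc, rfl⟩
  obtain ⟨h1, h2⟩ := finrank_tangentSpace hc hd (smoothable k d n)
  rw [← Module.finrank_eq_rank]
  exact_mod_cast h2

end Pool.Agent.Results.MP_9d305a_ag.LargeAmbientSpace
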