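import Pool.Agent.V5helper92.Tan.Count
import Pool.Agent.V5helper92.Tan.Extend

/-!
# The smoothable component at the powers of the maximal ideal

Let `k` be an algebraically closed field of any characteristic, `e ≤ n`, `r ≥ 0` and
`d = C(e + r, e)`. The smoothable component of the Hilbert scheme of `d` points of the affine space
of dimension `n` has a point at which the dimension of its tangent space is at least
`C(e + r, r + 1) C(e + r - 1, r) + (n - e) d`. For `e = n` the point is the power `𝔪^(r+1)` of a
maximal ideal, and the bound grows like `d^(2 - 2/n)`.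

The definitions are in `Pool/Agent/V5helper92/Tan/Defs.lean`.

*Proof.* Let `e = n`. The power `𝔪^(r+1)` is in the chart of the monomials of degree `≤ r`, and its
tangent vectors are given by their coordinates `v (m, κ)` for `|m| = r + 1` and `|κ| = r`. If `J` is
the ideal of `d` points in this chart with the coordinates `c`, then the multiples `τ J` converge to
`𝔪^(r+1)`, and the tangent vector of this arc has the coordinates `c (m, κ)`. Let `λ` be a linear
functional which vanishes on all these vectors, and `|ν| = r`. We take the points
`(α_(κ_1), …, α_(κ_n))` for `|κ| ≤ r`, `κ ≠ ν`, and one further point `w` which varies. By Newton's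
interpolation the coordinates are `c (m, κ) = a (m, κ) + (w^m - f_m (w)) / F (w) · coeff_κ F`, where
`F = ∏_j ∏_(t < ν_j) (x_j - α_t)` and `f_m` has degree `≤ r`. Hence
`∑ λ (m, κ) (a (m, κ) F + (x^m - f_m) coeff_κ F) = 0`, and the coefficient at `x^m` for `|m| = r + 1`
gives `λ (m, ν) = 0`. For `e < n` we add `n - e` variables: a point of the smaller Hilbert scheme is
also the limit of the graphs of `τ f`, for all `f : Spec (S/J) → 𝔸^(n-e)`.
-/

set_option autoImplicit false

namespace Pool.Agent.Results.MP_9d305a_ag.PowersOfMaximalIdeal

open Pool.Agent.V5helper92.Tan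

/-- **Theorem.** For all `e ≤ n` and all `r`, the smoothable component for `C(r + e, e)` points in
the affine space of dimension `n` has a point at which the dimension of its tangent space is at
least `C(e + r, r + 1) C(e + r - 1, r) + (n - e) C(r + e, e)`. -/
theorem result {k : Type} [Field k] [IsAlgClosed k] {e n : ℕ} (hen : e ≤ n) (r : ℕ) :
    ∃ x ∈ smoothable k ((r + e).choose e) n,
      ∃ ρ, HasTangentDim (smoothable k ((r + e).choose e) n) x ρ ∧
        (((e + r).choose (r + 1) * (e + r - 1).choose r + (n - e) * (r + e).choose e : ℕ) :
          Cardinal) ≤ ρ := by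
  have : Infinite k := IsAlgClosed.instInfinite
  obtain ⟨B, hB⟩ := exists_full e r
  have hc := inChart_pow (k := k) hB
  have hx := pow_mem (x := ⟨powIdeal k e (r + 1), hc.finite, hc.finrank⟩) hB rfl
  refine ⟨pullback hen (t₀ k e n) (t₀_castLE hen) _, pullback_mem hen _ (t₀_castLE hen) hx, _,
    ⟨_, _, inChart_comap hen (t₀_castLE hen) hc, rfl⟩, le_trans ?_ (rank_add_le hen hx hc)⟩
  rw [Nat.cast_add]
  refine add_le_add_left ?_ _
  have h3 := le_rank (k := k) hB
  rw [Nat.multichoose_eq, Nat.multichoose_eq] at h3
  exact h3

end Pool.Agent.Results.MP_9d305a_ag.PowersOfMaximalIdeal
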